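import Pool.Statements.S0942
import Pool.Agent.Ann.Main

set_option autoImplicit false
open Pool Pool.MP_c12e41_al

namespace Pool.Agent.S0942

/-- The negation of the preceding statement: For every field K, every group G and every element a of the group algebra K[G], the set of x with x·a = 0 equals the left ideal generated by some finite set of elements of K[G]. -/
theorem result :
    ¬ (∀ (K : Type) [Field K] (G : Type) [Group G] (a : MonoidAlgebra K G),
      ∃ s : Finset (MonoidAlgebra K G),
        ((Submodule.span (MonoidAlgebra K G) (s : Set (MonoidAlgebra K G)) :
            Set (MonoidAlgebra K G)) = {x : MonoidAlgebra K G | x * a = 0})) := by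
  intro h
  exact Pool.Agent.Ann.main (h ℚ Pool.Agent.Ann.G Pool.Agent.Ann.al)

end Pool.Agent.S0942
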