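import Pool.Statements.S1058
import Pool.Agent.Ore.Main

set_option autoImplicit false
open Pool Pool.MP_df592a_al

namespace Pool.Agent.S1058

/-- The negation of the preceding statement: Take any ring A whose right ideals form a distributive lattice and any maximal right ideal M. Then some ring hom f : A → Q sends every t outside M to a unit, gives every q in Q as f(a)f(t)⁻¹ with t outside M, and has kernel the a with a·t = 0 for some t outside M. -/
theorem result :
    ¬ (∀ (A : Type) [Ring A],
      (∀ I J K : Submodule Aᵐᵒᵖ A, I ⊓ (J ⊔ K) = I ⊓ J ⊔ I ⊓ K) →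
      ∀ M : Submodule Aᵐᵒᵖ A, IsCoatom M →
        ∃ (Q : Type) (_ : Ring Q) (f : A →+* Q),
          (∀ t : A, t ∉ M → IsUnit (f t)) ∧
          (∀ q : Q, ∃ a t : A, t ∉ M ∧ q * f t = f a) ∧
          (∀ a : A, f a = 0 ↔ ∃ t : A, t ∉ M ∧ a * t = 0)) := by
  exact Pool.Agent.Ore.main

end Pool.Agent.S1058
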