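import Pool.Statements.S1332
import Pool.Agent.Snake.Main

set_option autoImplicit false
open Pool Pool.MP_3153bb_an

namespace Pool.Agent.S1332

/-- The negation of the preceding statement: For μ continuous, convex, even, nonnegative on [-1,1], every degree-≤n polynomial bounded by μ there and alternating ±μ at n+1 points (ending at +μ) is a nonnegative combination of Chebyshev polynomials T_0..T_n. -/
theorem result :
    ¬ (∀ (μ : ℝ → ℝ), ContinuousOn μ (Set.Icc (-1) 1) →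
      ConvexOn ℝ (Set.Icc (-1) 1) μ →
      (∀ x ∈ Set.Icc (-1 : ℝ) 1, μ (-x) = μ x) →
      (∀ x ∈ Set.Icc (-1 : ℝ) 1, 0 ≤ μ x) →
      ∀ (n : ℕ) (p : Polynomial ℝ), p.natDegree ≤ n →
        (∀ x ∈ Set.Icc (-1 : ℝ) 1, |p.eval x| ≤ μ x) →
        (∃ τ : Fin (n + 1) → ℝ, StrictMono τ ∧ (∀ i, τ i ∈ Set.Icc (-1 : ℝ) 1) ∧
          ∀ i, p.eval (τ i) = (-1 : ℝ) ^ (n - (i : ℕ)) * μ (τ i)) →
        ∃ c : ℕ → ℝ, (∀ j, 0 ≤ c j) ∧
          p = ∑ j ∈ Finset.range (n + 1),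
            Polynomial.C (c j) * Polynomial.Chebyshev.T ℝ (j : ℤ)) := by
  exact Pool.Agent.Snake.main

end Pool.Agent.S1332
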