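import Pool.Statements.S1396
import Pool.Agent.Stechkin.Main

set_option autoImplicit false
open Pool Pool.MP_462cdc_an

namespace Pool.Agent.S1396

/-- The negation of the preceding statement: For every real Banach space E: if for each compact G the set of points with at most one nearest point in G is dense or non-meagre, then E is strictly convex. -/
theorem result :
    ¬ (∀ (E : Type) [NormedAddCommGroup E] [NormedSpace ℝ E] [CompleteSpace E],
      (∀ G : Set E, IsCompact G →
        (Dense {x : E | ∀ g₁ ∈ G, ∀ g₂ ∈ G,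
            (∀ y ∈ G, ‖x - g₁‖ ≤ ‖x - y‖) →
            (∀ y ∈ G, ‖x - g₂‖ ≤ ‖x - y‖) → g₁ = g₂} ∨
         ¬ IsMeagre {x : E | ∀ g₁ ∈ G, ∀ g₂ ∈ G,
            (∀ y ∈ G, ‖x - g₁‖ ≤ ‖x - y‖) →
            (∀ y ∈ G, ‖x - g₂‖ ≤ ‖x - y‖) → g₁ = g₂})) →
      StrictConvexSpace ℝ E) := by
  exact Pool.Agent.Stechkin.main

end Pool.Agent.S1396
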