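import Pool.Statements.S1438
import Pool.Agent.PowerMean.Main

set_option autoImplicit false
open Pool Pool.MP_5bcbac_an

namespace Pool.Agent.S1438

/-- The negation of the preceding statement: For all positive semidefinite operators X, Y on C^n and all p ≥ 2, the map t ↦ Tr[(Y − (tX^p + (1−t)Y^p)^(1/p))^2] is non-decreasing on [0,1]. -/
theorem result :
    ¬ (∀ (n : ℕ) (X Y : EuclideanSpace ℂ (Fin n) →L[ℂ] EuclideanSpace ℂ (Fin n)) (p : ℝ),
      0 ≤ X → 0 ≤ Y → 2 ≤ p →
      MonotoneOn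
        (fun t : ℝ =>
          (LinearMap.trace ℂ (EuclideanSpace ℂ (Fin n))
            (((Y - cfc (fun x : ℝ => x ^ (1 / p))
                ((t : ℂ) • cfc (fun x : ℝ => x ^ p) X
                  + ((1 - t : ℝ) : ℂ) • cfc (fun x : ℝ => x ^ p) Y)) ^ 2 :
                EuclideanSpace ℂ (Fin n) →L[ℂ] EuclideanSpace ℂ (Fin n)) :
              EuclideanSpace ℂ (Fin n) →ₗ[ℂ] EuclideanSpace ℂ (Fin n))).re)
        (Set.Icc (0 : ℝ) 1)) := by
  exact Pool.Agent.PowerMean.main

end Pool.Agent.S1438
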