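import Pool.Statements.S1524
import Pool.Agent.QRCP.Main

set_option autoImplicit false
open Matrix
open Pool Pool.MP_79babf_an

namespace Pool.Agent.S1524

/-- The negation of the preceding statement: There are constants C, d such that for every n×k real Q with orthonormal columns (k<n), the k rows picked by greedy column-pivoted QR on Qᵀ (first index on ties) give a k×k block whose inverse has 2-norm at most C·n^d. -/
theorem result :
    ¬ (∃ C : ℝ, ∃ d : ℕ, ∀ n k : ℕ, k < n →
      ∀ Q : Matrix (Fin n) (Fin k) ℝ, Qᵀ * Q = 1 →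
      ∀ σ : Fin k → Fin n,
        (∀ j : Fin k, ∀ r : Fin n,
          Metric.infDist (WithLp.toLp 2 (Q r) : EuclideanSpace ℝ (Fin k))
              (Submodule.span ℝ
                ((fun i : Fin k => (WithLp.toLp 2 (Q (σ i)) : EuclideanSpace ℝ (Fin k))) ''
                  {i | i < j}) : Set (EuclideanSpace ℝ (Fin k)))
            ≤ Metric.infDist (WithLp.toLp 2 (Q (σ j)) : EuclideanSpace ℝ (Fin k))
              (Submodule.span ℝ
                ((fun i : Fin k => (WithLp.toLp 2 (Q (σ i)) : EuclideanSpace ℝ (Fin k))) ''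
                  {i | i < j}) : Set (EuclideanSpace ℝ (Fin k)))) →
        (∀ j : Fin k, ∀ r : Fin n, r < σ j →
          Metric.infDist (WithLp.toLp 2 (Q r) : EuclideanSpace ℝ (Fin k))
              (Submodule.span ℝ
                ((fun i : Fin k => (WithLp.toLp 2 (Q (σ i)) : EuclideanSpace ℝ (Fin k))) ''
                  {i | i < j}) : Set (EuclideanSpace ℝ (Fin k)))
            < Metric.infDist (WithLp.toLp 2 (Q (σ j)) : EuclideanSpace ℝ (Fin k))
              (Submodule.span ℝ
                ((fun i : Fin k => (WithLp.toLp 2 (Q (σ i)) : EuclideanSpace ℝ (Fin k))) ''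
                  {i | i < j}) : Set (EuclideanSpace ℝ (Fin k)))) →
        ∀ x : Fin k → ℝ,
          ‖(WithLp.toLp 2 x : EuclideanSpace ℝ (Fin k))‖ ≤
            C * (n : ℝ) ^ d *
              ‖(WithLp.toLp 2 ((Q.submatrix σ id) *ᵥ x) : EuclideanSpace ℝ (Fin k))‖) := by
  exact Pool.Agent.QRCP.main

end Pool.Agent.S1524
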