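import Pool.Statements.S1678
import Pool.Agent.DWRD.Main

set_option autoImplicit false
open scoped ComplexOrder
open Pool Pool.MP_a946bc_an

namespace Pool.Agent.S1678

/-- The negation of the preceding statement: For PSD complex n×n matrices with A₀,B₀ isospectral and A₁,B₁ isospectral, if every word trace in A is real and at least the modulus of the matching word trace in B, then for all p≥1 the sum of p-th powers of eigenvalues of A₀+A₁ is at least that of B₀+B₁. -/
theorem result :
    ¬ (∀ (n : ℕ) (A₀ A₁ B₀ B₁ : Matrix (Fin n) (Fin n) ℂ)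
      (hA₀ : A₀.PosSemidef) (hA₁ : A₁.PosSemidef)
      (hB₀ : B₀.PosSemidef) (hB₁ : B₁.PosSemidef),
      A₀.charpoly = B₀.charpoly →
      A₁.charpoly = B₁.charpoly →
      (∀ s : List Bool,
        ((‖((s.map (fun b => cond b B₁ B₀)).prod).trace‖ : ℝ) : ℂ) ≤
          ((s.map (fun b => cond b A₁ A₀)).prod).trace) →
      ∀ p : ℝ, 1 ≤ p →
        ∑ i, ((hB₀.add hB₁).isHermitian.eigenvalues i) ^ p ≤
          ∑ i, ((hA₀.add hA₁).isHermitian.eigenvalues i) ^ p) := by
  exact Pool.Agent.DWRD.main

end Pool.Agent.S1678
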