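import Pool.Statements.S2356

set_option autoImplicit false
open Pool Pool.MP_6f5d90_co

namespace Pool.Agent.S2356

/-- the blocks (hyperplanes with at least four points), as bit masks -/
def blk : List ℕ := [4032, 2145, 1185, 801, 2130, 1170, 786, 2124, 1164, 780, 325, 2181, 1541, 354, 2210, 1570, 344, 2200, 1560, 1105, 657, 2321, 1098, 650, 2314, 1124, 676, 2340, 195, 1283, 2563, 212, 1300, 2580, 232, 1320, 2600, 585, 393, 3081, 582, 390, 3078, 624, 432, 3120]

/-- the number of ones among the first twelve binary digits -/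
def pop (n : ℕ) : ℕ := ((List.range 12).filter (fun i => n.testBit i)).length

/-- the set of a bit mask -/
def toF (n : ℕ) : Finset (Fin 12) := Finset.univ.filter (fun i => n.testBit i.val = true)

lemma card_toF (n : ℕ) : (toF n).card = pop n := by
  unfold toF pop
  rw [Finset.card_filter, Fin.sum_univ_eq_sum_range (fun i => if n.testBit i = true then 1 else 0) 12,
    ← Finset.card_filter]
  have : (Finset.range 12).filter (fun i => n.testBit i = true) =
      ((List.range 12).filter (fun i => n.testBit i)).toFinset := by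
    ext i
    simp
  rw [this, List.toFinset_card_of_nodup]
  exact List.Nodup.filter _ (List.nodup_range)

lemma toF_inter (m n : ℕ) : toF m ∩ toF n = toF (m &&& n) := by
  ext i
  simp [toF, Nat.testBit_and]

lemma blk_check : (blk.all fun B => blk.all fun B' => B == B' || decide (pop (B &&& B') ≤ 2)) = true := by
  decide +kernel

lemma blk_hs : (blk.all fun B => decide (pop (B &&& 63) ≤ 2)) = true := by
  decide +kernel

lemma blk_cover : ((List.range 12).all fun x => (List.range 12).all fun y => (List.range 12).all fun z =>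
    x == y || x == z || y == z || (decide (x < 6) && decide (y < 6) && decide (z < 6)) ||
      blk.any fun B => B.testBit x && B.testBit y && B.testBit z) = true := by
  decide +kernel


/-- the blocks as finsets -/
def IsBlock (B : Finset (Fin 12)) : Prop := ∃ b ∈ blk, B = toF b

lemma block_inter {B B' : Finset (Fin 12)} (h : IsBlock B) (h' : IsBlock B') (hne : B ≠ B') :
    (B ∩ B').card ≤ 2 := by
  obtain ⟨b, hb, rfl⟩ := h
  obtain ⟨b', hb', rfl⟩ := h'
  have := blk_check
  rw [List.all_eq_true] at this
  have := this b hb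
  rw [List.all_eq_true] at this
  have := this b' hb'
  rw [Bool.or_eq_true] at this
  rcases this with h | h
  · exact absurd (by rw [eq_of_beq h]) hne
  · rw [toF_inter, card_toF]
    exact of_decide_eq_true h

/-- the six-point set `{0,...,5}` -/
def Hs : Finset (Fin 12) := toF 63

lemma block_Hs {B : Finset (Fin 12)} (h : IsBlock B) : (B ∩ Hs).card ≤ 2 := by
  obtain ⟨b, hb, rfl⟩ := h
  have := blk_hs
  rw [List.all_eq_true] at this
  have := this b hb
  rw [Hs, toF_inter, card_toF]
  exact of_decide_eq_true this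

lemma Hs_card : Hs.card = 6 := by
  rw [Hs, card_toF]
  decide +kernel

lemma mem_Hs (x : Fin 12) (hx : x.val < 6) : x ∈ Hs := by
  revert x
  decide +kernel

lemma cover (x y z : Fin 12) (hxy : x ≠ y) (hxz : x ≠ z) (hyz : y ≠ z) :
    (x ∈ Hs ∧ y ∈ Hs ∧ z ∈ Hs) ∨ ∃ B, IsBlock B ∧ x ∈ B ∧ y ∈ B ∧ z ∈ B := by
  have := blk_cover
  rw [List.all_eq_true] at this
  have := this x.val (by simp)
  rw [List.all_eq_true] at this
  have := this y.val (by simp)
  rw [List.all_eq_true] at this
  have := this z.val (by simp)
  simp only [Bool.or_eq_true, beq_iff_eq, Bool.and_eq_true, decide_eq_true_eq, List.any_eq_true] at this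
  rcases this with (((h | h) | h) | ⟨⟨h1, h2⟩, h3⟩) | ⟨B, hB, ⟨h1, h2⟩, h3⟩
  · exact absurd (Fin.ext h) hxy
  · exact absurd (Fin.ext h) hxz
  · exact absurd (Fin.ext h) hyz
  · exact Or.inl ⟨mem_Hs _ h1, mem_Hs _ h2, mem_Hs _ h3⟩
  · exact Or.inr ⟨toF B, ⟨B, hB, rfl⟩, by simp [toF, h1], by simp [toF, h2], by simp [toF, h3]⟩

/-- independence of finite sets -/
def Ind (I : Finset (Fin 12)) : Prop := I.card ≤ 4 ∧ (I.card = 4 → ∀ B, IsBlock B → ¬ I ⊆ B)

lemma ind_of_card {I : Finset (Fin 12)} (h : I.card ≤ 3) : Ind I :=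
  ⟨by omega, fun h' => by omega⟩

/-- the matroid -/
def IM : IndepMatroid (Fin 12) := IndepMatroid.ofFinset Set.univ Ind
  (ind_of_card (by simp))
  (by
    intro I J hJ hIJ
    have hc := Finset.card_le_card hIJ
    refine ⟨hc.trans hJ.1, fun h4 B hB hIB => ?_⟩
    have : I = J := Finset.eq_of_subset_of_card_le hIJ (by rw [h4]; exact hJ.1)
    subst this
    exact hJ.2 h4 B hB hIB)
  (by
    intro I J hI hJ hlt
    by_cases h3 : I.card = 3
    · have hJ4 : J.card = 4 := by have := hJ.1; omega
      by_cases hb : ∃ B, IsBlock B ∧ I ⊆ B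
      · obtain ⟨B, hB, hIB⟩ := hb
        have := hJ.2 hJ4 B hB
        rw [Finset.not_subset] at this
        obtain ⟨e, heJ, heB⟩ := this
        have heI : e ∉ I := fun h => heB (hIB h)
        refine ⟨e, heJ, heI, ?_, ?_⟩
        · rw [Finset.card_insert_of_notMem heI, h3]
        · intro _ B' hB' hsub
          have hne : B ≠ B' := by
            rintro rfl
            exact heB (hsub (Finset.mem_insert_self _ _))
          have h1 := block_inter hB hB' hne
          have h2 : I ⊆ B ∩ B' := Finset.subset_inter hIB ((Finset.subset_insert _ _).trans hsub)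
          have := Finset.card_le_card h2
          omega
      · obtain ⟨e, heJ, heI⟩ := Finset.exists_mem_notMem_of_card_lt_card hlt
        refine ⟨e, heJ, heI, ?_, ?_⟩
        · rw [Finset.card_insert_of_notMem heI, h3]
        · intro _ B' hB' hsub
          exact hb ⟨B', hB', (Finset.subset_insert _ _).trans hsub⟩
    · obtain ⟨e, heJ, heI⟩ := Finset.exists_mem_notMem_of_card_lt_card hlt
      refine ⟨e, heJ, heI, ind_of_card ?_⟩
      rw [Finset.card_insert_of_notMem heI]
      have := hJ.1
      omega)
  (by intro I _; exact Set.subset_univ _)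

/-- the matroid -/
def M : Matroid (Fin 12) := IM.matroid

lemma M_E : M.E = Set.univ := rfl

lemma M_indep (I : Finset (Fin 12)) : M.Indep (I : Set (Fin 12)) ↔ Ind I := by
  rw [M, IndepMatroid.matroid_indep_iff]
  exact IndepMatroid.ofFinset_indep Set.univ Ind _ _ _ _

lemma mem_closure_iff {I : Finset (Fin 12)} (hI : Ind I) (e : Fin 12) :
    e ∈ M.closure (I : Set (Fin 12)) ↔ (e ∈ I ∨ ¬ Ind (insert e I)) := by
  rw [((M_indep I).2 hI).mem_closure_iff', ← Finset.coe_insert, M_indep]
  simp only [M_E, Set.mem_univ, true_and, Finset.mem_coe]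
  tauto

/-- small sets are flats -/
lemma flat_small {I : Finset (Fin 12)} (hI : I.card ≤ 2) : M.closure (I : Set (Fin 12)) = I := by
  ext e
  rw [mem_closure_iff (ind_of_card (by omega)), Finset.mem_coe]
  constructor
  · rintro (h | h)
    · exact h
    · exact absurd (ind_of_card ((Finset.card_insert_le _ _).trans (by omega))) h
  · exact Or.inl

lemma closure_triple_block {I B : Finset (Fin 12)} (hI : I.card = 3) (hB : IsBlock B) (hIB : I ⊆ B) :
    M.closure (I : Set (Fin 12)) = B := by
  ext e
  rw [mem_closure_iff (ind_of_card (by omega)), Finset.mem_coe]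
  constructor
  · rintro (h | h)
    · exact hIB h
    · by_contra heB
      apply h
      have heI : e ∉ I := fun h => heB (hIB h)
      refine ⟨by rw [Finset.card_insert_of_notMem heI]; omega, fun _ B' hB' hsub => ?_⟩
      have hne : B ≠ B' := by
        rintro rfl
        exact heB (hsub (Finset.mem_insert_self _ _))
      have h1 := block_inter hB hB' hne
      have h2 : I ⊆ B ∩ B' := Finset.subset_inter hIB ((Finset.subset_insert _ _).trans hsub)
      have := Finset.card_le_card h2
      omega
  · intro h
    by_cases heI : e ∈ I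
    · exact Or.inl heI
    · right
      intro hind
      refine hind.2 (by rw [Finset.card_insert_of_notMem heI]; omega) B hB ?_
      exact Finset.insert_subset h hIB

lemma closure_triple_nb {I : Finset (Fin 12)} (hI : I.card = 3) (hB : ∀ B, IsBlock B → ¬ I ⊆ B) :
    M.closure (I : Set (Fin 12)) = I := by
  ext e
  rw [mem_closure_iff (ind_of_card (by omega)), Finset.mem_coe]
  constructor
  · rintro (h | h)
    · exact h
    · by_contra heI
      apply h
      refine ⟨by rw [Finset.card_insert_of_notMem heI]; omega, fun _ B' hB' hsub => ?_⟩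
      exact hB B' hB' ((Finset.subset_insert _ _).trans hsub)
  · exact Or.inl

lemma triple_Hs {I : Finset (Fin 12)} (hI : I.card = 3) (hH : I ⊆ Hs) : ∀ B, IsBlock B → ¬ I ⊆ B := by
  intro B hB hIB
  have h1 := block_Hs hB
  have := Finset.card_le_card (Finset.subset_inter hIB hH)
  omega

/-- the flats of rank three, up to size -/
def lines : Finset (Finset (Fin 12)) := (blk.map toF).toFinset ∪ Hs.powersetCard 3

lemma lines_card : lines.card ≤ 66 := by
  refine (Finset.card_union_le _ _).trans ?_
  rw [Finset.card_powersetCard, Hs_card]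
  have := List.toFinset_card_le (blk.map toF)
  rw [List.length_map] at this
  have h46 : blk.length = 46 := rfl
  have : Nat.choose 6 3 = 20 := rfl
  omega

lemma closure_triple_mem {I : Finset (Fin 12)} (hI : I.card = 3) :
    ∃ L ∈ lines, M.closure (I : Set (Fin 12)) = (L : Set (Fin 12)) := by
  by_cases hb : ∃ B, IsBlock B ∧ I ⊆ B
  · obtain ⟨B, hB, hIB⟩ := hb
    refine ⟨B, ?_, closure_triple_block hI hB hIB⟩
    obtain ⟨b, hb, rfl⟩ := hB
    rw [lines, Finset.mem_union, List.mem_toFinset, List.mem_map]
    exact Or.inl ⟨b, hb, rfl⟩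
  · push Not at hb
    refine ⟨I, ?_, closure_triple_nb hI hb⟩
    rw [lines, Finset.mem_union]
    right
    rw [Finset.mem_powersetCard]
    refine ⟨?_, hI⟩
    obtain ⟨x, y, z, hxy, hxz, hyz, rfl⟩ := Finset.card_eq_three.1 hI
    rcases cover x y z hxy hxz hyz with ⟨h1, h2, h3⟩ | ⟨B, hB, h1, h2, h3⟩
    · intro w hw
      simp only [Finset.mem_insert, Finset.mem_singleton] at hw
      rcases hw with rfl | rfl | rfl <;> assumption
    · exfalso
      refine hb B hB ?_
      intro w hw
      simp only [Finset.mem_insert, Finset.mem_singleton] at hw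
      rcases hw with rfl | rfl | rfl <;> assumption

lemma eRank_le : M.eRank ≤ 4 := by
  obtain ⟨B, hB⟩ := M.exists_isBase
  rw [← hB.encard_eq_eRank]
  obtain ⟨I, rfl⟩ : ∃ I : Finset (Fin 12), B = (I : Set (Fin 12)) := ⟨B.toFinite.toFinset, (Set.Finite.coe_toFinset _).symm⟩
  have := ((M_indep I).1 hB.indep).1
  rw [Set.encard_coe_eq_coe_finsetCard]
  exact_mod_cast this

lemma level_le (k : ℕ) :
    {F : Set (Fin 12) | M.IsFlat F ∧ M.eRk F = (k : ℕ∞)}.ncard ≤ 66 := by
  classical
  have hbas : ∀ F : Set (Fin 12), M.IsFlat F → M.eRk F = (k : ℕ∞) →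
      ∃ I : Finset (Fin 12), I.card = k ∧ Ind I ∧ F = M.closure (I : Set (Fin 12)) := by
    intro F hF hk
    obtain ⟨I, hI⟩ := M.exists_isBasis F (by rw [M_E]; exact Set.subset_univ _)
    obtain ⟨J, rfl⟩ : ∃ J : Finset (Fin 12), I = (J : Set (Fin 12)) := ⟨I.toFinite.toFinset, (Set.Finite.coe_toFinset _).symm⟩
    refine ⟨J, ?_, (M_indep J).1 hI.indep, ?_⟩
    · have := hI.encard_eq_eRk
      rw [hk, Set.encard_coe_eq_coe_finsetCard] at this
      exact_mod_cast this
    · rw [hI.closure_eq_closure, hF.closure]
  rcases Nat.lt_or_ge k 3 with hk | hk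
  · have hsub : {F : Set (Fin 12) | M.IsFlat F ∧ M.eRk F = (k : ℕ∞)} ⊆
        (((Finset.univ : Finset (Fin 12)).powersetCard k).image
          (fun s : Finset (Fin 12) => (s : Set (Fin 12))) : Finset (Set (Fin 12))) := by
      rintro F ⟨hF, hFk⟩
      obtain ⟨I, hIc, hI, rfl⟩ := hbas F hF hFk
      rw [flat_small (by omega)]
      simp [hIc]
    refine (Set.ncard_le_ncard hsub (Finset.finite_toSet _)).trans ?_
    rw [Set.ncard_coe_finset]
    refine Finset.card_image_le.trans ?_
    rw [Finset.card_powersetCard]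
    interval_cases k <;> decide
  · rcases Nat.eq_or_lt_of_le hk with hk | hk
    · subst hk
      have hsub : {F : Set (Fin 12) | M.IsFlat F ∧ M.eRk F = ((3 : ℕ) : ℕ∞)} ⊆
          (lines.image (fun s : Finset (Fin 12) => (s : Set (Fin 12))) : Finset (Set (Fin 12))) := by
        rintro F ⟨hF, hFk⟩
        obtain ⟨I, hIc, hI, rfl⟩ := hbas F hF hFk
        obtain ⟨L, hL, hL'⟩ := closure_triple_mem hIc
        rw [hL', Finset.coe_image]
        exact ⟨L, hL, rfl⟩
      refine (Set.ncard_le_ncard hsub (Finset.finite_toSet _)).trans ?_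
      rw [Set.ncard_coe_finset]
      exact Finset.card_image_le.trans lines_card
    · have hsub : {F : Set (Fin 12) | M.IsFlat F ∧ M.eRk F = (k : ℕ∞)} ⊆ {Set.univ} := by
        rintro F ⟨hF, hFk⟩
        rw [Set.mem_singleton_iff]
        obtain ⟨I, hIc, hI, rfl⟩ := hbas F hF hFk
        have h4 : I.card = 4 := by have := hI.1; omega
        ext e
        rw [mem_closure_iff hI]
        simp only [Set.mem_univ, iff_true]
        by_cases heI : e ∈ I
        · exact Or.inl heI
        · right
          intro h
          have := h.1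
          rw [Finset.card_insert_of_notMem heI] at this
          omega
      refine (Set.ncard_le_ncard hsub (Set.finite_singleton _)).trans ?_
      simp

/-- the antichain -/
def anti : Finset (Finset (Fin 12)) :=
  ((Finset.univ.powersetCard 2) \ (Hs.powersetCard 2)) ∪ (Hs.powersetCard 3)

lemma anti_card : anti.card = 71 := by
  rw [anti, Finset.card_union_of_disjoint, Finset.card_sdiff_of_subset, Finset.card_powersetCard,
    Finset.card_powersetCard, Finset.card_powersetCard, Hs_card]
  · rfl
  · exact Finset.powersetCard_mono (Finset.subset_univ _)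
  · rw [Finset.disjoint_left]
    intro s hs hs'
    rw [Finset.mem_sdiff, Finset.mem_powersetCard] at hs
    rw [Finset.mem_powersetCard] at hs'
    omega

/-- The negation of the preceding statement: For every matroid on a finite set whose circuits all have size at least its rank (paving), some rank level of its flats is at least as large as every antichain of flats under inclusion, i.e. the lattice of flats is Sperner. -/
theorem result :
    ¬ (∀ (α : Type) [Finite α] (M : Matroid α),
      (∀ C : Set α, M.IsCircuit C → M.eRk M.E ≤ C.encard) →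
      ∃ k : ℕ, ∀ A : Set (Set α), (∀ F ∈ A, M.IsFlat F) →
        IsAntichain (· ⊆ ·) A →
        A.ncard ≤ {F : Set α | M.IsFlat F ∧ M.eRk F = (k : ℕ∞)}.ncard) := by
  intro hall
  obtain ⟨k, hk⟩ := hall (Fin 12) M (by
    intro C hC
    rw [Matroid.eRk_ground]
    refine eRank_le.trans ?_
    obtain ⟨J, rfl⟩ : ∃ J : Finset (Fin 12), C = (J : Set (Fin 12)) := ⟨C.toFinite.toFinset, (Set.Finite.coe_toFinset _).symm⟩
    rw [Set.encard_coe_eq_coe_finsetCard]
    by_contra hlt
    push Not at hlt
    have h3 : J.card ≤ 3 := by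
      have : J.card < 4 := by exact_mod_cast hlt
      omega
    exact hC.dep.not_indep ((M_indep J).2 (ind_of_card h3)))
  have := hk ((fun s : Finset (Fin 12) => (s : Set (Fin 12))) '' (anti : Set (Finset (Fin 12)))) ?_ ?_
  · rw [Set.ncard_image_of_injective _ Finset.coe_injective, Set.ncard_coe_finset, anti_card] at this
    have h66 := level_le k
    omega
  · rintro F ⟨s, hs, rfl⟩
    rw [Matroid.isFlat_iff_closure_eq]
    rw [Finset.mem_coe, anti, Finset.mem_union, Finset.mem_sdiff, Finset.mem_powersetCard,
      Finset.mem_powersetCard, Finset.mem_powersetCard] at hs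
    rcases hs with ⟨⟨_, h2⟩, _⟩ | ⟨hH, h3⟩
    · exact flat_small (by omega)
    · exact closure_triple_nb h3 (triple_Hs h3 hH)
  · rintro _ ⟨s, hs, rfl⟩ _ ⟨t, ht, rfl⟩ hne hst
    simp only [Finset.coe_subset] at hst
    have hne' : s ≠ t := fun h => hne (by rw [h])
    have hlt : s.card < t.card := Finset.card_lt_card (hst.ssubset_of_ne hne')
    rw [Finset.mem_coe, anti, Finset.mem_union, Finset.mem_sdiff, Finset.mem_powersetCard,
      Finset.mem_powersetCard, Finset.mem_powersetCard] at hs ht
    rcases hs with ⟨⟨_, h2⟩, hn⟩ | ⟨_, h3⟩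
    · rcases ht with ⟨⟨_, h2'⟩, _⟩ | ⟨hH, h3⟩
      · omega
      · exact hn ⟨hst.trans hH, h2⟩
    · rcases ht with ⟨⟨_, h2'⟩, _⟩ | ⟨hH, h3'⟩
      · omega
      · omega

end Pool.Agent.S2356
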