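import Pool.Statements.S3141
import Pool.Agent.D767.Main

set_option autoImplicit false
universe u
open Pool Pool.MP_767487_gt

namespace Pool.Agent.S3141

/-- For any family of T0 spaces, each well-filtered determined (every irreducible closed set maps into any well-filtered space with closure equal to a unique point closure), the product space is also T0 and well-filtered determined. -/
theorem result :
    ∀ (ι : Type u) (X : ι → Type u) [∀ i, TopologicalSpace (X i)],
      (∀ i, T0Space (X i) ∧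
        ∀ A : Set (X i), IsIrreducible A → IsClosed A →
          ∀ (Y : Type u) [TopologicalSpace Y],
            (T0Space Y ∧
              ∀ 𝒦 : Set (Set Y), 𝒦.Nonempty →
                (∀ K ∈ 𝒦, IsCompact K ∧
                  ∀ y : Y, (∀ V : Set Y, IsOpen V → K ⊆ V → y ∈ V) → y ∈ K) →
                (∀ K₁ ∈ 𝒦, ∀ K₂ ∈ 𝒦, ∃ K₃ ∈ 𝒦, K₃ ⊆ K₁ ∩ K₂) →
                ∀ U : Set Y, IsOpen U → ⋂₀ 𝒦 ⊆ U → ∃ K ∈ 𝒦, K ⊆ U) →
            ∀ f : X i → Y, Continuous f →
              ∃! y : Y, y ∈ closure (f '' A) ∧ closure (f '' A) = closure {y}) →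
      (T0Space ((i : ι) → X i) ∧
        ∀ A : Set ((i : ι) → X i), IsIrreducible A → IsClosed A →
          ∀ (Y : Type u) [TopologicalSpace Y],
            (T0Space Y ∧
              ∀ 𝒦 : Set (Set Y), 𝒦.Nonempty →
                (∀ K ∈ 𝒦, IsCompact K ∧
                  ∀ y : Y, (∀ V : Set Y, IsOpen V → K ⊆ V → y ∈ V) → y ∈ K) →
                (∀ K₁ ∈ 𝒦, ∀ K₂ ∈ 𝒦, ∃ K₃ ∈ 𝒦, K₃ ⊆ K₁ ∩ K₂) →
                ∀ U : Set Y, IsOpen U → ⋂₀ 𝒦 ⊆ U → ∃ K ∈ 𝒦, K ⊆ U) →
            ∀ f : ((i : ι) → X i) → Y, Continuous f →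
              ∃! y : Y, y ∈ closure (f '' A) ∧ closure (f '' A) = closure {y}) := by
  exact Pool.Agent.D767.main

end Pool.Agent.S3141
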