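import Pool.Statements.S3530
import Pool.Agent.Proj.Main

set_option autoImplicit false
open Pool Pool.MP_5708a2_lc

namespace Pool.Agent.S3530

/-- The negation of the preceding statement: For every countable family of subsets of the real plane there is a finite family of plane sets such that every class containing it and closed under complement, union, projections onto the axes and products of axis sets contains the whole countable family. -/
theorem result :
    ¬ (∀ F : Set (Set (ℝ × ℝ)), F.Countable →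
      ∃ G : Set (Set (ℝ × ℝ)), G.Finite ∧
        ∀ S ∈ F, ∀ C : Set (Set (ℝ × ℝ)),
          (∀ T ∈ C, Tᶜ ∈ C) →
          (∀ T ∈ C, ∀ U ∈ C, T ∪ U ∈ C) →
          (∀ T ∈ C, {p : ℝ × ℝ | p.2 = 0 ∧ ∃ y : ℝ, (p.1, y) ∈ T} ∈ C) →
          (∀ T ∈ C, {p : ℝ × ℝ | p.1 = 0 ∧ ∃ x : ℝ, (x, p.2) ∈ T} ∈ C) →
          (∀ A ∈ C, ∀ B ∈ C, A ⊆ {p : ℝ × ℝ | p.2 = 0} → B ⊆ {p : ℝ × ℝ | p.1 = 0} →
            {p : ℝ × ℝ | ((p.1, (0:ℝ)) ∈ A) ∧ (((0:ℝ), p.2) ∈ B)} ∈ C) →
          G ⊆ C → S ∈ C) := by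
  exact Pool.Agent.Proj.main

end Pool.Agent.S3530
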