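import Pool.Statements.S4175

set_option autoImplicit false
open Pool Pool.MP_2fa2bc_nt

namespace Pool.Agent.S4175

open Polynomial

/-- the polynomial `X^4 + X^2 - X + 1` -/
noncomputable def P : Polynomial ℤ := X ^ 4 + X ^ 2 - X + 1

/-- the cofactor `1 + X - X^3` -/
noncomputable def T : Polynomial ℤ := 1 + X - X ^ 3

lemma PT : P * T = 1 + C 2 * X ^ 4 - X ^ 7 := by
  have : (C 2 : Polynomial ℤ) = 2 := rfl
  rw [P, T, this]
  ring

lemma P_natDegree : P.natDegree = 4 := by
  rw [P]
  compute_degree!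

lemma P_monic : P.Monic := by
  rw [P]
  monicity!

lemma P_irr : Irreducible P := by
  have h1 : P ≠ 1 := by
    intro h
    have := P_natDegree
    rw [h, natDegree_one] at this
    omega
  rw [P_monic.irreducible_iff_natDegree']
  refine ⟨h1, ?_⟩
  intro f g hf hg hfg hdeg
  rw [P_natDegree] at hdeg
  have hsum : f.natDegree + g.natDegree = 4 := by
    rw [← hf.natDegree_mul hg, hfg, P_natDegree]
  have hd : g.natDegree = 1 ∨ g.natDegree = 2 := by
    rw [Finset.mem_Ioc] at hdeg
    omega
  rcases hd with hd | hd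
  · -- a root
    obtain ⟨a, ha⟩ : ∃ a : ℤ, g = X + C a := by
      refine ⟨g.coeff 0, ?_⟩
      exact hg.eq_X_add_C hd
    have hr : P.eval (-a) = 0 := by
      rw [← hfg, ha]
      simp
    have hr' : a ^ 4 + a ^ 2 + a + 1 = 0 := by
      have : P.eval (-a) = a ^ 4 + a ^ 2 + a + 1 := by
        simp [P]
        ring
      rw [← this, hr]
    nlinarith [sq_nonneg (a ^ 2), sq_nonneg (a + 1), sq_nonneg a, sq_nonneg (2 * a + 1)]
  · have hfd : f.natDegree = 2 := by omega
    have e0 : f.coeff 0 * g.coeff 0 = 1 := by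
      have : (f * g).coeff 0 = P.coeff 0 := by rw [hfg]
      rw [mul_coeff_zero] at this
      rw [this]
      simp [P]
    have f2 : f.coeff 2 = 1 := by rw [← hfd]; exact hf
    have g2 : g.coeff 2 = 1 := by rw [← hd]; exact hg
    have f3 : f.coeff 3 = 0 := coeff_eq_zero_of_natDegree_lt (by omega)
    have g3 : g.coeff 3 = 0 := coeff_eq_zero_of_natDegree_lt (by omega)
    have e1 : f.coeff 0 * g.coeff 1 + f.coeff 1 * g.coeff 0 = -1 := by
      have : (f * g).coeff 1 = P.coeff 1 := by rw [hfg]
      rw [coeff_mul, Finset.Nat.antidiagonal_succ] at this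
      simp at this
      rw [this]
      simp [P, coeff_one, coeff_X]
    have e3 : f.coeff 1 + g.coeff 1 = 0 := by
      have : (f * g).coeff 3 = P.coeff 3 := by rw [hfg]
      rw [coeff_mul] at this
      simp [Finset.Nat.antidiagonal_succ, f2, g2, f3, g3] at this
      have h3 : P.coeff 3 = 0 := by simp [P, coeff_one, coeff_X]
      rw [h3] at this
      linarith
    have hu : IsUnit (f.coeff 0) := IsUnit.of_mul_eq_one _ e0
    rcases Int.isUnit_iff.1 hu with h | h
    · rw [h] at e0 e1
      have : g.coeff 0 = 1 := by linarith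
      rw [this] at e1
      linarith
    · rw [h] at e0 e1
      have : g.coeff 0 = -1 := by linarith
      rw [this] at e1
      linarith

/-- a complex root of `P` does not lie on the unit circle -/
lemma root_P (α : ℂ) (h : α ^ 4 + α ^ 2 - α + 1 = 0) : ‖α‖ ≠ 1 := by
  intro hn
  have hc : α * (starRingEnd ℂ) α = 1 := by
    rw [Complex.mul_conj, Complex.normSq_eq_norm_sq, hn]
    simp
  set β := (starRingEnd ℂ) α with hβ
  have h2 : β ^ 4 + β ^ 2 - β + 1 = 0 := by
    have := congrArg (starRingEnd ℂ) h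
    simpa using this
  have h3 : 1 + α ^ 2 - α ^ 3 + α ^ 4 = 0 := by
    have e4 : α ^ 4 * β ^ 4 = 1 := by rw [← mul_pow, hc, one_pow]
    have e2 : α ^ 4 * β ^ 2 = α ^ 2 := by
      calc α ^ 4 * β ^ 2 = α ^ 2 * (α * β) ^ 2 := by ring
        _ = α ^ 2 := by rw [hc]; ring
    have e1 : α ^ 4 * β = α ^ 3 := by
      calc α ^ 4 * β = α ^ 3 * (α * β) := by ring
        _ = α ^ 3 := by rw [hc]; ring
    linear_combination α ^ 4 * h2 - e4 - e2 + e1
  have hα0 : α ≠ 0 := by
    rintro rfl
    simp at h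
  have h4 : α * (1 - α ^ 2) = 0 := by linear_combination h3 - h
  rcases mul_eq_zero.1 h4 with h5 | h5
  · exact hα0 h5
  · have h6 : α = 3 := by linear_combination (-1 : ℂ) * h - (α ^ 2 + 2) * h5
    rw [h6] at h5
    norm_num at h5

/-- a complex root of `T` does not lie on the unit circle -/
lemma root_T (α : ℂ) (h : 1 + α - α ^ 3 = 0) : ‖α‖ ≠ 1 := by
  intro hn
  have hc : α * (starRingEnd ℂ) α = 1 := by
    rw [Complex.mul_conj, Complex.normSq_eq_norm_sq, hn]
    simp
  set β := (starRingEnd ℂ) α with hβ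
  have h2 : 1 + β - β ^ 3 = 0 := by
    have := congrArg (starRingEnd ℂ) h
    simpa using this
  have h3 : α ^ 3 + α ^ 2 - 1 = 0 := by
    have e3 : α ^ 3 * β ^ 3 = 1 := by rw [← mul_pow, hc, one_pow]
    have e1 : α ^ 3 * β = α ^ 2 := by
      calc α ^ 3 * β = α ^ 2 * (α * β) := by ring
        _ = α ^ 2 := by rw [hc]; ring
    linear_combination α ^ 3 * h2 + e3 - e1
  have hα0 : α ≠ 0 := by
    rintro rfl
    simp at h
  have h4 : α * (1 + α) = 0 := by linear_combination h3 + h
  rcases mul_eq_zero.1 h4 with h5 | h5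
  · exact hα0 h5
  · have h6 : α = -1 := by linear_combination h5
    rw [h6] at h
    norm_num at h

/-- the length of a nonzero multiple of `P` is at least four -/
lemma lower (F : Polynomial ℤ) (hF : F ≠ 0) (hdvd : P ∣ F) :
    4 ≤ ∑ i ∈ F.support, |F.coeff i| := by
  obtain ⟨α, hα⟩ : ∃ α : ℂ, aeval α P = 0 := by
    apply IsAlgClosed.exists_aeval_eq_zero
    rw [degree_eq_natDegree P_monic.ne_zero, P_natDegree]
    norm_num
  have hα' : α ^ 4 + α ^ 2 - α + 1 = 0 := by
    simpa [P] using hα
  have hα0 : α ≠ 0 := by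
    rintro rfl
    simp at hα'
  have hn := root_P α hα'
  have hFα : aeval α F = 0 := by
    obtain ⟨S, rfl⟩ := hdvd
    rw [map_mul, hα, zero_mul]
  -- parity
  have hpar : (2 : ℤ) ∣ ∑ i ∈ F.support, |F.coeff i| := by
    have h1 : F.eval 1 = ∑ i ∈ F.support, F.coeff i := by
      rw [eval_eq_sum, Polynomial.sum]
      simp
    have h2 : (2 : ℤ) ∣ F.eval 1 := by
      obtain ⟨S, rfl⟩ := hdvd
      rw [eval_mul]
      exact Dvd.dvd.mul_right (by simp [P]) _
    have h3 : (2 : ℤ) ∣ ∑ i ∈ F.support, (|F.coeff i| - F.coeff i) := by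
      apply Finset.dvd_sum
      intro i _
      rcases abs_choice (F.coeff i) with h | h <;> rw [h]
      · simp
      · exact ⟨-F.coeff i, by ring⟩
    rw [Finset.sum_sub_distrib] at h3
    rw [h1] at h2
    have := dvd_add h3 h2
    simpa using this
  have hone : ∀ i ∈ F.support, (1 : ℤ) ≤ |F.coeff i| := by
    intro i hi
    exact Int.one_le_abs (mem_support_iff.1 hi)
  have hcard : (F.support.card : ℤ) ≤ ∑ i ∈ F.support, |F.coeff i| := by
    have := Finset.sum_le_sum hone
    simpa using this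
  have hpos : 0 < F.support.card := by
    rw [Finset.card_pos]
    exact nonempty_support_iff.2 hF
  by_contra hlt
  push Not at hlt
  obtain ⟨k, hk⟩ := hpar
  have hk1 : k = 1 := by
    have : (1 : ℤ) ≤ F.support.card := by exact_mod_cast hpos
    omega
  subst hk1
  have hsum : ∑ i ∈ F.support, (F.coeff i : ℂ) * α ^ i = 0 := by
    rw [← hFα, aeval_def, eval₂_eq_sum, Polynomial.sum]
    simp
  have hcard2 : F.support.card ≤ 2 := by
    have : (F.support.card : ℤ) ≤ 2 := by linarith
    exact_mod_cast this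
  have hc12 : F.support.card = 1 ∨ F.support.card = 2 := by omega
  rcases hc12 with h1 | h2
  · obtain ⟨i, hi⟩ := Finset.card_eq_one.1 h1
    rw [hi, Finset.sum_singleton] at hsum
    have hi' : F.coeff i ≠ 0 := by
      rw [← mem_support_iff, hi]
      simp
    have : (F.coeff i : ℂ) ≠ 0 := by exact_mod_cast hi'
    exact (mul_ne_zero this (pow_ne_zero _ hα0)) hsum
  · obtain ⟨i, j, hij, hs⟩ := Finset.card_eq_two.1 h2
    have hi : (1 : ℤ) ≤ |F.coeff i| := hone i (by rw [hs]; simp)
    have hj : (1 : ℤ) ≤ |F.coeff j| := hone j (by rw [hs]; simp)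
    rw [hs, Finset.sum_pair hij] at hk
    have hi1 : |F.coeff i| = 1 := by omega
    have hj1 : |F.coeff j| = 1 := by omega
    rw [hs, Finset.sum_pair hij] at hsum
    have hnorm : ‖α‖ ^ i = ‖α‖ ^ j := by
      have h3 : (F.coeff i : ℂ) * α ^ i = - ((F.coeff j : ℂ) * α ^ j) := by
        linear_combination hsum
      have h4 := congrArg (fun z => ‖z‖) h3
      simp only [norm_mul, norm_neg, norm_pow] at h4
      have hi2 : ‖(F.coeff i : ℂ)‖ = 1 := by
        rw [Complex.norm_intCast]
        exact_mod_cast hi1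
      have hj2 : ‖(F.coeff j : ℂ)‖ = 1 := by
        rw [Complex.norm_intCast]
        exact_mod_cast hj1
      rw [hi2, hj2, one_mul, one_mul] at h4
      exact h4
    have hpos : 0 < ‖α‖ := norm_pos_iff.2 hα0
    exact hij (pow_right_injective₀ hpos hn hnorm)

lemma T_ne : T ≠ 0 := by
  intro h
  have : T.eval 0 = 0 := by rw [h]; simp
  simp [T] at this

lemma T_natDegree : T.natDegree = 3 := by
  rw [T]
  compute_degree!

lemma len_PT : ∑ i ∈ (P * T).support, |(P * T).coeff i| = 4 := by
  have hsub : (P * T).support ⊆ Finset.range 8 := by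
    intro i hi
    rw [Finset.mem_range]
    by_contra hge
    push Not at hge
    rw [mem_support_iff] at hi
    apply hi
    apply coeff_eq_zero_of_natDegree_lt
    rw [PT]
    refine lt_of_le_of_lt (b := 7) ?_ (by omega)
    compute_degree!
  rw [Finset.sum_subset hsub (by
    intro i _ hi
    rw [notMem_support_iff.1 hi]
    simp)]
  rw [PT]
  simp [Finset.sum_range_succ, coeff_one, coeff_X_pow, coeff_C_mul]

/-- There is a monic irreducible integer polynomial P and a nonzero integer T such that PT has least length among all nonzero multiples of P, and T has a nonzero complex root that is not a root of unity. -/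
theorem result :
    ∃ P T : Polynomial ℤ, P.Monic ∧ Irreducible P ∧ T ≠ 0 ∧
      (∀ S : Polynomial ℤ, S ≠ 0 →
        ∑ i ∈ (P * T).support, |(P * T).coeff i| ≤
          ∑ i ∈ (P * S).support, |(P * S).coeff i|) ∧
      ∃ z : ℂ, z ≠ 0 ∧ Polynomial.aeval z T = 0 ∧ ∀ n : ℕ, 0 < n → z ^ n ≠ 1 := by
  refine ⟨P, T, P_monic, P_irr, T_ne, ?_, ?_⟩
  · intro S hS
    rw [len_PT]
    exact lower _ (mul_ne_zero P_monic.ne_zero hS) (dvd_mul_right _ _)
  · obtain ⟨β, hβ⟩ : ∃ β : ℂ, aeval β T = 0 := by
      apply IsAlgClosed.exists_aeval_eq_zero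
      rw [degree_eq_natDegree T_ne, T_natDegree]
      norm_num
    have hβ' : 1 + β - β ^ 3 = 0 := by
      simpa [T] using hβ
    refine ⟨β, ?_, hβ, ?_⟩
    · rintro rfl
      simp at hβ'
    · intro n hn h1
      have h2 := root_T β hβ'
      have h3 : ‖β‖ ^ n = 1 := by rw [← norm_pow, h1, norm_one]
      exact h2 ((pow_eq_one_iff_of_nonneg (norm_nonneg _) hn.ne').1 h3)

end Pool.Agent.S4175
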