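import Pool.Statements.S4407

set_option autoImplicit false
open Nebf1142c
open Filter
open Pool Pool.MP_4ffaa3_nt

namespace Pool.Agent.S4407

/-- the integer sequence -/
def s (M n : ℕ) : ℕ := (M + n % M) * 2 ^ (n / M)

lemma s_pos (M n : ℕ) (hM : 0 < M) : 0 < s M n := by
  unfold s
  positivity

lemma s_step (M n : ℕ) (hM : 0 < M) : s M n * (2 * M) ≤ s M (n + 1) * (2 * M - 1) := by
  unfold s
  have hmod : n % M < M := Nat.mod_lt _ hM
  by_cases h : n % M + 1 = M
  · have h1 : (n + 1) % M = 0 := by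
      rw [Nat.add_mod]
      rcases Nat.lt_or_ge 1 M with h1 | h1
      · rw [Nat.mod_eq_of_lt h1, h, Nat.mod_self]
      · have : M = 1 := by omega
        subst this
        simp [Nat.mod_one]
    have h2 : (n + 1) / M = n / M + 1 := by
      rw [Nat.succ_div, if_pos (Nat.dvd_of_mod_eq_zero h1)]
    rw [h1, h2, pow_succ]
    have h3 : M + n % M = 2 * M - 1 := by omega
    rw [h3]
    have : (2 * M - 1) * 2 ^ (n / M) * (2 * M) = (M + 0) * (2 ^ (n / M) * 2) * (2 * M - 1) := by ring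
    rw [this]
  · have hlt : n % M + 1 < M := by omega
    have h1 : (n + 1) % M = n % M + 1 := by
      rw [Nat.add_mod, Nat.mod_eq_of_lt (by omega : 1 < M), Nat.mod_eq_of_lt hlt]
    have h2 : (n + 1) / M = n / M := by
      rw [Nat.succ_div, if_neg]
      · simp
      · intro hd
        have := Nat.mod_eq_zero_of_dvd hd
        omega
    rw [h1, h2]
    have h3 : (M + n % M) * (2 * M) ≤ (M + (n % M + 1)) * (2 * M - 1) := by
      obtain ⟨K, hK⟩ : ∃ K, 2 * M = K + 1 := ⟨2 * M - 1, by omega⟩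
      rw [hK]
      have : K + 1 - 1 = K := by omega
      rw [this]
      nlinarith
    calc (M + n % M) * 2 ^ (n / M) * (2 * M) = ((M + n % M) * (2 * M)) * 2 ^ (n / M) := by ring
      _ ≤ ((M + (n % M + 1)) * (2 * M - 1)) * 2 ^ (n / M) := Nat.mul_le_mul_right _ h3
      _ = _ := by ring

/-- all `k * 2 ^ L` with `k ≤ M` and `L` large occur late in the sequence -/
lemma s_surj (M N k L : ℕ) (hk : 0 < k) (hkM : k ≤ M) (hL : N + M ≤ L) :
    ∃ n ≥ N, s M n = k * 2 ^ L := by
  have hM : 0 < M := by omega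
  have hex : ∃ i, M ≤ k * 2 ^ i := by
    refine ⟨M, ?_⟩
    have := Nat.lt_two_pow_self (n := M)
    nlinarith
  classical
  obtain ⟨i, hi, hmin⟩ : ∃ i, M ≤ k * 2 ^ i ∧ ∀ j < i, ¬ M ≤ k * 2 ^ j :=
    ⟨Nat.find hex, Nat.find_spec hex, fun j hj => Nat.find_min hex hj⟩
  have hi2 : k * 2 ^ i < 2 * M := by
    rcases Nat.eq_zero_or_pos i with h0 | h0
    · subst h0
      simp
      omega
    · have := hmin (i - 1) (by omega)
      push Not at this
      have h2 : 2 ^ i = 2 * 2 ^ (i - 1) := by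
        rw [← pow_succ']
        congr 1
        omega
      rw [h2]
      nlinarith
  have hiM : i ≤ M := by
    by_contra hcon
    push Not at hcon
    have h1 := Nat.lt_two_pow_self (n := i)
    have h2 : 2 ^ M * 2 ≤ 2 ^ i := by
      rw [← pow_succ]
      exact Nat.pow_le_pow_right (by omega) (by omega)
    have h3 := Nat.lt_two_pow_self (n := M)
    nlinarith
  obtain ⟨r, hr⟩ := Nat.exists_eq_add_of_le hi
  have hrM : r < M := by omega
  refine ⟨(L - i) * M + r, ?_, ?_⟩
  · have : N ≤ L - i := by omega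
    nlinarith
  · unfold s
    have h1 : ((L - i) * M + r) % M = r := by
      rw [Nat.add_mod, Nat.mul_mod_left, zero_add, Nat.mod_mod, Nat.mod_eq_of_lt hrM]
    have h2 : ((L - i) * M + r) / M = L - i := by
      rw [Nat.add_div_of_dvd_right (Dvd.intro_left _ rfl), Nat.mul_div_cancel _ hM,
        Nat.div_eq_of_lt hrM, add_zero]
    rw [h1, h2, ← hr, mul_assoc, ← pow_add]
    congr 2
    omega

/-- the key approximation lemma -/
lemma key (Q : ℕ) (hQ : 0 < Q) (x : ℝ) (hx : Irrational x) :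
    ∃ k i : ℕ, 0 < k ∧ k ≤ (2 * Q + 1) * Q ∧ 1 - 1 / (Q : ℝ) ≤ Int.fract (x * ((k * 2 ^ i : ℕ) : ℝ)) := by
  obtain ⟨a, b, hb0, hbQ, hab⟩ := Real.exists_int_int_abs_mul_sub_le x hQ
  have hQ' : (0 : ℝ) < Q := by exact_mod_cast hQ
  have hQ1 : 1 / ((Q : ℝ) + 1) ≤ 1 / (Q : ℝ) := by
    apply one_div_le_one_div_of_le hQ'
    linarith
  have hQ2 : 1 / ((Q : ℝ) + 1) < 1 := by
    rw [div_lt_one (by linarith)]
    linarith
  obtain ⟨b', rfl⟩ : ∃ b' : ℕ, b = (b' : ℤ) := ⟨b.toNat, by omega⟩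
  have hb0' : 0 < b' := by exact_mod_cast hb0
  have hbQ' : b' ≤ Q := by exact_mod_cast hbQ
  simp only [Int.cast_natCast] at hab
  set η : ℝ := (b' : ℝ) * x - a with hη
  have hη0 : η ≠ 0 := by
    intro h
    have : (b' : ℝ) * x = a := by linarith
    have hirr := hx.natCast_mul hb0'.ne'
    rw [this] at hirr
    exact (Int.not_irrational a) hirr
  rw [abs_le] at hab
  rcases lt_or_gt_of_ne hη0 with hneg | hpos
  · refine ⟨b', 0, hb0', ?_, ?_⟩
    · nlinarith
    · have h1 : x * ((b' * 2 ^ 0 : ℕ) : ℝ) = (a - 1 : ℤ) + (1 + η) := by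
        push_cast
        rw [hη]
        ring
      rw [h1, Int.fract_intCast_add, Int.fract_eq_self.2 ⟨by linarith, by linarith⟩]
      linarith
  · -- scale up by a power of two
    have hex : ∃ i : ℕ, 1 / (2 * ((Q : ℝ) + 1)) < 2 ^ i * η := by
      obtain ⟨i, hi⟩ := pow_unbounded_of_one_lt (1 / (2 * ((Q : ℝ) + 1)) / η) (one_lt_two)
      refine ⟨i, ?_⟩
      rwa [div_lt_iff₀ hpos] at hi
    classical
    obtain ⟨i, hi, hmin⟩ : ∃ i : ℕ, 1 / (2 * ((Q : ℝ) + 1)) < 2 ^ i * η ∧
        ∀ j < i, ¬ 1 / (2 * ((Q : ℝ) + 1)) < 2 ^ j * η :=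
      ⟨Nat.find hex, Nat.find_spec hex, fun j hj => Nat.find_min hex hj⟩
    set η' : ℝ := 2 ^ i * η with hη'
    have hup : η' ≤ 1 / ((Q : ℝ) + 1) := by
      rcases Nat.eq_zero_or_pos i with h0 | h0
      · rw [hη', h0]
        simpa using hab.2
      · have := hmin (i - 1) (by omega)
        push Not at this
        have h2 : (2 : ℝ) ^ i = 2 * 2 ^ (i - 1) := by
          rw [← pow_succ']
          congr 1
          omega
        rw [hη', h2]
        have h3 : 1 / (2 * ((Q : ℝ) + 1)) = 1 / ((Q : ℝ) + 1) / 2 := by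
          rw [div_div, mul_comm]
        rw [h3] at this
        linarith
    have hη'pos : 0 < η' := by
      rw [hη']
      positivity
    -- choose m
    obtain ⟨m, hm⟩ : ∃ m : ℕ, ⌈1 / η'⌉₊ = m + 1 := by
      refine ⟨⌈1 / η'⌉₊ - 1, ?_⟩
      have : 0 < ⌈1 / η'⌉₊ := Nat.ceil_pos.2 (by positivity)
      omega
    have hm1 : (m : ℝ) * η' < 1 := by
      have : (m : ℝ) < 1 / η' := by
        rw [← Nat.lt_ceil, hm]
        omega
      rwa [lt_div_iff₀ hη'pos] at this
    have hm2 : 1 ≤ ((m : ℝ) + 1) * η' := by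
      have : 1 / η' ≤ ((m + 1 : ℕ) : ℝ) := by
        rw [← hm]
        exact Nat.le_ceil _
      rw [div_le_iff₀ hη'pos] at this
      push_cast at this
      exact this
    have hm3 : m ≤ 2 * Q + 1 := by
      have h4 : (m : ℝ) * (1 / (2 * ((Q : ℝ) + 1))) < 1 := by
        rcases Nat.eq_zero_or_pos m with h0 | h0
        · rw [h0]; simp
        · have : (0 : ℝ) < m := by exact_mod_cast h0
          nlinarith
      have h5 : (m : ℝ) < 2 * ((Q : ℝ) + 1) := by
        rw [mul_one_div, div_lt_one (by positivity)] at h4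
        exact h4
      have h6 : m < 2 * (Q + 1) := by exact_mod_cast h5
      omega
    have hm0 : 0 < m := by
      rcases Nat.eq_zero_or_pos m with h0 | h0
      · rw [h0] at hm2
        simp at hm2
        linarith
      · exact h0
    refine ⟨m * b', i, Nat.mul_pos hm0 hb0', Nat.mul_le_mul hm3 hbQ', ?_⟩
    have h1 : x * ((m * b' * 2 ^ i : ℕ) : ℝ) = ((m : ℤ) * 2 ^ i * a : ℤ) + (m : ℝ) * η' := by
      push_cast
      rw [hη', hη]
      ring
    rw [h1, Int.fract_intCast_add, Int.fract_eq_self.2 ⟨by positivity, hm1⟩]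
    nlinarith

/-- For every number field K ⊆ ℝ and every ε>0 there is a positive sequence t:ℕ→K with some c>1 such that eventually c·t_k<t_{k+1}, and for every real ξ∉K, limsup fract(ξ t_n) ≥ 1−ε. -/
theorem result :
    ∀ (K : IntermediateField ℚ ℝ) [FiniteDimensional ℚ K] {ε : ℝ} (hε : 0 < ε), ∃ t : ℕ → K, (∀ n, 0 < (t n : ℝ)) ∧ (∃ c > (1 : ℝ), ∀ᶠ k in atTop, c * (t k : ℝ) < (t (k + 1) : ℝ)) ∧ ∀ ξ : ℝ, ξ ∉ K → (1 - ε) ≤ limsup (fun n => Int.fract (ξ * (t n : ℝ))) atTop := by
  intro K _ ε hε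
  obtain ⟨Q, hQ⟩ := exists_nat_one_div_lt hε
  set M := (2 * (Q + 1) + 1) * (Q + 1) with hM
  have hM0 : 3 ≤ M := by nlinarith
  have hcast : ∀ n, (((s M n : ℕ) : K) : ℝ) = (s M n : ℝ) := fun n => by simp
  refine ⟨fun n => ((s M n : ℕ) : K), ?_, ?_, ?_⟩
  · intro n
    rw [hcast]
    exact_mod_cast s_pos M n (by omega)
  · refine ⟨(4 * M : ℝ) / (4 * M - 1), ?_, ?_⟩
    · have : (3 : ℝ) ≤ M := by exact_mod_cast hM0
      rw [gt_iff_lt, one_lt_div (by linarith)]
      linarith
    · refine Eventually.of_forall fun n => ?_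
      rw [hcast, hcast]
      have h1 := s_step M n (by omega)
      have hM3 : (3 : ℝ) ≤ M := by exact_mod_cast hM0
      have hp : (0 : ℝ) < s M n := by exact_mod_cast s_pos M n (by omega)
      have h2 : (s M n : ℝ) * (2 * M) ≤ (s M (n + 1) : ℝ) * (2 * M - 1) := by
        have := (Nat.cast_le (α := ℝ)).2 h1
        rw [Nat.cast_mul (s M (n + 1)), Nat.cast_sub (by omega)] at this
        push_cast at this
        exact this
      rw [div_mul_eq_mul_div, div_lt_iff₀ (by linarith)]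
      have h3 : (s M n : ℝ) < s M (n + 1) := by nlinarith
      nlinarith
  · intro ξ hξ
    have hirr : Irrational ξ := by
      rintro ⟨q, rfl⟩
      exact hξ (K.algebraMap_mem q)
    apply le_limsup_of_frequently_le
    · rw [frequently_atTop]
      intro N
      set x := ξ * ((2 ^ (N + M) : ℕ) : ℝ) with hx
      have hxi : Irrational x := hirr.mul_natCast (by positivity)
      obtain ⟨k, i, hk0, hkM, hfr⟩ := key (Q + 1) (by omega) x hxi
      obtain ⟨n, hn, hs⟩ := s_surj M N k (N + M + i) hk0 hkM (by omega)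
      refine ⟨n, hn, ?_⟩
      rw [hcast, hs]
      have h1 : ξ * ((k * 2 ^ (N + M + i) : ℕ) : ℝ) = x * ((k * 2 ^ i : ℕ) : ℝ) := by
        rw [hx]
        push_cast
        rw [pow_add]
        ring
      rw [h1]
      refine le_trans ?_ hfr
      push_cast
      linarith
    · exact isBoundedUnder_of ⟨1, fun n => (Int.fract_lt_one _).le⟩

end Pool.Agent.S4407
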